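import Pool.Agent.H87.ES.Tools

/-!
# The deterministic lemma: the bound
-/

set_option autoImplicit false

namespace Pool.Agent.H87.ES

open Finset Pool.Agent.H6.N4D
open Pool.Agent.H28.EN (T_FAR)

lemma mul4_le {a b c d B : ℝ} (ha : 0 ≤ a) (hb : 0 ≤ b) (hc : 0 ≤ c) (hd : 0 ≤ d) (h1 : a ≤ B)
    (h2 : b ≤ B) (h3 : c ≤ B) (h4 : d ≤ B) : a * b * (c * d) ≤ B ^ 4 := by
  have hB : 0 ≤ B := ha.trans h1
  calc a * b * (c * d) ≤ B * B * (B * B) := by gcongr
    _ = B ^ 4 := by ring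

lemma cell_pos {x : ℝ} (h : |x| < 5) : 0 ≤ (x + 5) * 100 ∧ (x + 5) * 100 < 1000 := by
  rw [abs_lt] at h
  constructor <;> linarith

/-- the sign of a frequency -/
noncomputable def sgn (σ : Bool) (β : ℝ) : ℝ := if σ then β else -β

open Classical in
/-- The mass of the classes with a large correlation at a far frequency is bounded. -/
theorem det_main (hFAR : T_FAR) (N : ℕ) (P : Finset ℕ) (hP : ∀ p ∈ P, p.Prime) {B : ℝ}
    (hB : ∀ p ∈ P, (p : ℝ) ≤ B) (hN : 100 * B ^ 4 ≤ N) (f : ℕ → ℝ) (hf : ∀ t, |f t| ≤ 1)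
    {ι : Type*} (S : ι → ℝ) (c₀ c₁ : ℝ) (hc : c₀ + 1 / 100 < c₁)
    (hcov : ∀ α : ℝ, 1 / 2 ≤ ‖A1 (FF f α) N 1 0‖ → ∃ i, nd (α - S i) ≤ c₀ / N) :
    ∑ q ∈ P, (((range q).filter (fun r => ∃ β : ℝ, (∀ (i : ι) (b : ℤ),
      c₁ / N ≤ nd (β - S i - (b : ℝ) / q)) ∧ 61 / 100 ≤ ‖A1 (FF f β) N q r‖)).card : ℝ) / q ≤
      2 * 10 ^ 8 := by
  rcases P.eq_empty_or_nonempty with rfl | ⟨q0, hq0⟩
  · simp
  have hB2 : 2 ≤ B := le_trans (by exact_mod_cast (hP q0 hq0).two_le) (hB q0 hq0)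
  have hB0 : 0 < B := by linarith
  have hN1 : (1600 : ℝ) ≤ N := by
    refine le_trans ?_ hN
    nlinarith [pow_le_pow_left₀ (by norm_num : (0 : ℝ) ≤ 2) hB2 4]
  have hN0 : (0 : ℝ) < N := by linarith
  have hN0' : 0 < N := by exact_mod_cast hN0
  have hsize : ∀ q ∈ P, 1 ≤ q ∧ 100 * q ≤ N ∧ ((q : ℝ) * B ^ 2 ≤ N) ∧ q ≤ N := by
    intro q hq
    have h1 : (1 : ℝ) ≤ q := by exact_mod_cast (hP q hq).pos
    have h2 := hB q hq
    have hB3 : B ≤ B ^ 4 := by
      calc B = B * 1 := by ring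
        _ ≤ B * B ^ 3 := by
          have : (1 : ℝ) ≤ B ^ 3 := one_le_pow₀ (by linarith)
          gcongr
        _ = B ^ 4 := by ring
    have hB4 : B * B ^ 2 ≤ B ^ 4 := by
      calc B * B ^ 2 = B ^ 3 * 1 := by ring
        _ ≤ B ^ 3 * B := by gcongr; linarith
        _ = B ^ 4 := by ring
    have h3 : (100 : ℝ) * q ≤ N := by linarith
    have h3' : 100 * q ≤ N := by exact_mod_cast h3
    refine ⟨(hP q hq).pos, h3', ?_, by omega⟩
    have : (q : ℝ) * B ^ 2 ≤ B * B ^ 2 := by gcongr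
    have hB5 : (0 : ℝ) ≤ B ^ 4 := by positivity
    linarith
  have hB4n : (0 : ℝ) ≤ B ^ 4 := by positivity
  have hB2N : ((1 : ℕ) : ℝ) * B ^ 2 ≤ N := by
    have h4 := (hsize q0 hq0).2.2.1
    have h5 : (1 : ℝ) ≤ q0 := by exact_mod_cast (hP q0 hq0).pos
    have h6 : (0 : ℝ) ≤ B ^ 2 := sq_nonneg B
    push_cast
    nlinarith
  by_contra hlt
  push Not at hlt
  set bad : ℕ → ℕ → Prop := fun q r => ∃ β : ℝ, (∀ (i : ι) (b : ℤ),
      c₁ / N ≤ nd (β - S i - (b : ℝ) / q)) ∧ 61 / 100 ≤ ‖A1 (FF f β) N q r‖ with hbad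
  set E : Finset ((_ : ℕ) × ℕ) := (P.sigma (fun q => range q)).filter (fun e => bad e.1 e.2)
    with hE
  have hEP : E ⊆ P.sigma (fun q => range q) := Finset.filter_subset _ _
  have hmu : 2 * 10 ^ 8 < ∑ e ∈ E, 1 / (e.1 : ℝ) := by
    refine lt_of_lt_of_eq hlt ?_
    rw [hE, Finset.sum_filter, Finset.sum_sigma]
    refine Finset.sum_congr rfl fun q _ => ?_
    change _ = ∑ r ∈ range q, if bad q r then 1 / (q : ℝ) else 0
    rw [← Finset.sum_filter, Finset.sum_const, nsmul_eq_mul, mul_one_div]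
  have hEp : ∀ e ∈ E, e.1 ∈ P := fun e he => (mem_sigma.1 (hEP he)).1
  have hEprime : ∀ e ∈ E, e.1.Prime := fun e he => hP _ (hEp e he)
  have hEbad : ∀ e ∈ E, bad e.1 e.2 := fun e he => (mem_filter.1 he).2
  choose! β hβ1 hβ2 using hEbad
  clear_value E
  -- the relation
  set R : (_ : ℕ) × ℕ → (_ : ℕ) × ℕ → Prop := fun e e' => e'.1 = e.1 ∨
    1 / 100 ≤ ‖A2 (FF f (β e)) N e.1 e.2 e'.1 e'.2 - A1 (FF f (β e)) N e.1 e.2‖ with hR
  have hRM : ∀ e ∈ E, ∑ e' ∈ E.filter (fun e' => R e e'), 1 / (e'.1 : ℝ) ≤ 530001 := by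
    intro e he
    have hs := hsize e.1 (hEp e he)
    have h1 : ∑ e' ∈ E.filter (fun e' => R e e'), 1 / (e'.1 : ℝ) ≤
        ∑ e' ∈ E.filter (fun e' => e'.1 = e.1), 1 / (e'.1 : ℝ) +
        ∑ e' ∈ E.filter (fun e' => e'.1 ≠ e.1 ∧ 1 / 100 ≤
          ‖A2 (FF f (β e)) N e.1 e.2 e'.1 e'.2 - A1 (FF f (β e)) N e.1 e.2‖),
          1 / (e'.1 : ℝ) := by
      rw [Finset.sum_filter, Finset.sum_filter, Finset.sum_filter, ← Finset.sum_add_distrib]
      refine Finset.sum_le_sum fun e' _ => ?_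
      have hw : (0 : ℝ) ≤ 1 / (e'.1 : ℝ) := by positivity
      simp only [hR]
      by_cases c1 : e'.1 = e.1
      · simp [c1]
      · by_cases c2 : 1 / 100 ≤
          ‖A2 (FF f (β e)) N e.1 e.2 e'.1 e'.2 - A1 (FF f (β e)) N e.1 e.2‖
        · rw [if_pos (Or.inr c2), if_neg c1, if_pos ⟨c1, c2⟩, zero_add]
        · rw [if_neg (by tauto)]
          split_ifs <;> linarith
    have h2 : ∑ e' ∈ E.filter (fun e' => e'.1 = e.1), 1 / (e'.1 : ℝ) ≤ 1 :=
      one_q P e.1 hs.1 _ ((Finset.filter_subset _ _).trans hEP) fun e' he' => (mem_filter.1 he').2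
    have h3 := markov (FF f (β e)) (norm_FF hf _) N e.1 e.2 hs.1 P hP hB hs.2.2.1 hs.2.2.2 (1 / 100)
      (by norm_num) (E.filter (fun e' => e'.1 ≠ e.1 ∧ 1 / 100 ≤
          ‖A2 (FF f (β e)) N e.1 e.2 e'.1 e'.2 - A1 (FF f (β e)) N e.1 e.2‖))
      ((Finset.filter_subset _ _).trans hEP) (fun e' he' hd => by
        have h4 := mem_filter.1 he'
        exact h4.2.1 ((Nat.prime_dvd_prime_iff_eq (hEprime e' h4.1) (hEprime e he)).1 hd))
      (fun e' he' => (mem_filter.1 he').2.2)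
    rw [show (53 : ℝ) / (1 / 100) ^ 2 = 530000 by norm_num] at h3
    linarith
  have hw : ∀ e : (_ : ℕ) × ℕ, (0 : ℝ) ≤ 1 / (e.1 : ℝ) := fun e => by positivity
  obtain ⟨a, haE, ha⟩ := select E E subset_rfl (fun e => 1 / (e.1 : ℝ)) hw R 530001 hRM
    (by linarith) (by linarith) (by norm_num)
  -- the second anchor
  set E2 := E.filter (fun e => ¬ (R a e ∨ R e a)) with hE2
  have hE2m : ∑ e ∈ E, 1 / (e.1 : ℝ) = ∑ e' ∈ E.filter (fun e' => R a e' ∨ R e' a), 1 / (e'.1 : ℝ) +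
      ∑ e ∈ E2, 1 / (e.1 : ℝ) := by
    rw [hE2, Finset.sum_filter_add_sum_filter_not]
  obtain ⟨a', ha'E2, ha'⟩ := select E E2 (Finset.filter_subset _ _) (fun e => 1 / (e.1 : ℝ)) hw R
    530001 hRM (by linarith) (by linarith) (by norm_num)
  have ha'E : a' ∈ E := (mem_filter.1 ha'E2).1
  have haa' : a.1 ≠ a'.1 := by
    have h := (mem_filter.1 ha'E2).2
    intro h1
    exact h (Or.inl (Or.inl h1.symm))
  set E3 := E2.filter (fun e => ¬ (R a' e ∨ R e a')) with hE3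
  have hE3m : ∑ e ∈ E2, 1 / (e.1 : ℝ) =
      ∑ e' ∈ E2.filter (fun e' => R a' e' ∨ R e' a'), 1 / (e'.1 : ℝ) +
      ∑ e ∈ E3, 1 / (e.1 : ℝ) := by
    rw [hE3, Finset.sum_filter_add_sum_filter_not]
  have hE3b : ∑ e' ∈ E2.filter (fun e' => R a' e' ∨ R e' a'), 1 / (e'.1 : ℝ) ≤
      ∑ e' ∈ E.filter (fun e' => R a' e' ∨ R e' a'), 1 / (e'.1 : ℝ) :=
    Finset.sum_le_sum_of_subset_of_nonneg
      (Finset.filter_subset_filter _ (Finset.filter_subset _ _)) fun e _ _ => hw e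
  have hmu3 : 15 * 10 ^ 7 < ∑ e ∈ E3, 1 / (e.1 : ℝ) := by linarith
  -- good pairs
  have hgood : ∀ e ∈ E, ∀ d ∈ E, ¬ (R d e ∨ R e d) → ∃ σ : Bool, ∃ u v : ℤ,
      |β e - sgn σ (β d) - u / e.1 - v / d.1| < 5 / N := by
    intro e he d hd h
    rw [not_or] at h
    have h1 : e.1 ≠ d.1 := fun h2 => h.1 (Or.inl h2)
    have hce : Nat.Coprime e.1 d.1 := (Nat.coprime_primes (hEprime e he) (hEprime d hd)).2 h1
    have h3 : ‖A2 (FF f (β e)) N e.1 e.2 d.1 d.2 - A1 (FF f (β e)) N e.1 e.2‖ < 1 / 100 := by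
      by_contra h4
      exact h.2 (Or.inr (not_lt.1 h4))
    have h4 : ‖A2 (FF f (β d)) N d.1 d.2 e.1 e.2 - A1 (FF f (β d)) N d.1 d.2‖ < 1 / 100 := by
      by_contra h4
      exact h.1 (Or.inr (not_lt.1 h4))
    have h5 := hβ2 e he
    have h6 := hβ2 d hd
    have h7 := norm_sub_norm_le (A1 (FF f (β e)) N e.1 e.2) (A2 (FF f (β e)) N e.1 e.2 d.1 d.2)
    have h8 := norm_sub_norm_le (A1 (FF f (β d)) N d.1 d.2) (A2 (FF f (β d)) N d.1 d.2 e.1 e.2)
    rw [norm_sub_rev] at h7 h8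
    have h9 : 11 * (e.1 * d.1) ≤ N := by
      have e1 := hB e.1 (hEp e he)
      have e2 := hB d.1 (hEp d hd)
      have h10 : (11 : ℝ) * (e.1 * d.1) ≤ N := by
        have hB5 : B * B ≤ B ^ 4 := by
          calc B * B = B ^ 2 * 1 := by ring
            _ ≤ B ^ 2 * B ^ 2 := by
              have : (1 : ℝ) ≤ B ^ 2 := one_le_pow₀ (by linarith)
              gcongr
            _ = B ^ 4 := by ring
        have h11 : (e.1 : ℝ) * d.1 ≤ B * B := by gcongr
        have hB6 : (0 : ℝ) ≤ B ^ 4 := by positivity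
        linarith
      exact_mod_cast h10
    obtain ⟨σ, u, v, h12⟩ := pair hFAR f hf (hEprime e he).pos (hEprime d hd).pos hce h9 e.2 d.2
      (β e) (β d) (by linarith) (by linarith)
    exact ⟨σ, u, v, by unfold sgn; exact h12⟩
  have hE3E : ∀ e ∈ E3, e ∈ E := fun e he => (mem_filter.1 (mem_filter.1 he).1).1
  have hg1 : ∀ e ∈ E3, ∃ σ : Bool, ∃ u v : ℤ,
      |β e - sgn σ (β a) - u / e.1 - v / a.1| < 5 / N := fun e he =>
    hgood e (hE3E e he) a haE (mem_filter.1 (mem_filter.1 he).1).2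
  have hg2 : ∀ e ∈ E3, ∃ σ : Bool, ∃ u v : ℤ,
      |β e - sgn σ (β a') - u / e.1 - v / a'.1| < 5 / N := fun e he =>
    hgood e (hE3E e he) a' ha'E (mem_filter.1 he).2
  choose! σ1 u1 v1 h1 using hg1
  choose! σ2 u2 v2 h2 using hg2
  -- the labels
  set θ : (_ : ℕ) × ℕ → ℝ := fun e => β e - sgn (σ1 e) (β a) - u1 e / e.1 - v1 e / a.1 with hθ
  set cell : (_ : ℕ) × ℕ → ℕ := fun e => ⌊(θ e * N + 5) * 100⌋₊ with hcell
  have hθb : ∀ e ∈ E3, |θ e * N| < 5 := by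
    intro e he
    have := h1 e he
    rw [abs_mul, Nat.abs_cast]
    rwa [lt_div_iff₀ hN0] at this
  have hmaps : ∀ e ∈ E3, (σ1 e, σ2 e, cell e) ∈
      (univ : Finset Bool) ×ˢ ((univ : Finset Bool) ×ˢ range 1000) := by
    intro e he
    simp only [mem_product, mem_univ, true_and, mem_range]
    have h3 := cell_pos (hθb e he)
    rw [hcell]
    rw [Nat.floor_lt h3.1]
    push_cast
    exact h3.2
  have hcard : (((univ : Finset Bool) ×ˢ ((univ : Finset Bool) ×ˢ range 1000)).card) = 4000 := by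
    simp
  obtain ⟨⟨s1, s2, j⟩, -, hfib⟩ := Finset.exists_lt_sum_fiber_of_maps_to_of_nsmul_lt_sum
    (w := fun e : (_ : ℕ) × ℕ => 1 / (e.1 : ℝ)) (b := (35000 : ℝ)) hmaps (by
      rw [hcard, nsmul_eq_mul]
      push_cast
      linarith)
  set T := E3.filter (fun e => (σ1 e, σ2 e, cell e) = (s1, s2, j)) with hT
  have hTE3 : ∀ e ∈ T, e ∈ E3 := fun e he => (mem_filter.1 he).1
  obtain ⟨o, ho⟩ : T.Nonempty := by
    by_contra h
    rw [Finset.not_nonempty_iff_eq_empty] at h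
    rw [h, Finset.sum_empty] at hfib
    linarith
  set T' := T.filter (fun e => ¬ e.1 = o.1) with hT'
  have hT'm : 33125 < ∑ e ∈ T', 1 / (e.1 : ℝ) := by
    have h3 : ∑ e ∈ T.filter (fun e => e.1 = o.1), 1 / (e.1 : ℝ) + ∑ e ∈ T', 1 / (e.1 : ℝ) =
        ∑ e ∈ T, 1 / (e.1 : ℝ) := by
      rw [hT', Finset.sum_filter_add_sum_filter_not]
    have h4 : ∑ e ∈ T.filter (fun e => e.1 = o.1), 1 / (e.1 : ℝ) ≤ 1 := by
      refine one_q P o.1 (hEprime o (hE3E o (hTE3 o ho))).pos _ ?_ fun e he => (mem_filter.1 he).2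
      intro e he
      exact hEP (hE3E e (hTE3 e (mem_filter.1 he).1))
    linarith
  -- the common frequency
  set α : ℝ := sgn s1 (β a) + v1 o / a.1 + θ o with hα
  have hcomm : ∀ e ∈ T', ∃ b : ℤ, |β e - α - b / e.1| ≤ 1 / (100 * N) := by
    intro e he
    have heT := (mem_filter.1 he).1
    have heo : e.1 ≠ o.1 := (mem_filter.1 he).2
    have heE3 := hTE3 e heT
    have hoE3 := hTE3 o ho
    have hle := (mem_filter.1 heT).2
    have hlo := (mem_filter.1 ho).2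
    simp only [Prod.mk.injEq] at hle hlo
    have k1 := h1 e heE3
    have k2 := h2 e heE3
    have k3 := h1 o hoE3
    have k4 := h2 o hoE3
    rw [hle.1] at k1
    rw [hle.2.1] at k2
    rw [hlo.1] at k3
    rw [hlo.2.1] at k4
    have hdv : (a.1 : ℤ) ∣ (v1 o - v1 e) := by
      refine four_frac (hEprime e (hE3E e heE3)) (hEprime o (hE3E o hoE3)) (hEprime a haE)
        (hEprime a' ha'E) ?_ ?_ haa' (a := u2 e - u1 e) (b := u1 o - u2 o) (c := v1 o - v1 e)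
        (d := v2 e - v2 o) (δ := 20 / N) ?_ ?_
      · intro h
        exact (mem_filter.1 (mem_filter.1 heE3).1).2 (Or.inl (Or.inl h.symm))
      · intro h
        exact (mem_filter.1 (mem_filter.1 hoE3).1).2 (Or.inl (Or.inl h.symm))
      · have e1 : ((u2 e - u1 e : ℤ) : ℝ) / e.1 + ((u1 o - u2 o : ℤ) : ℝ) / o.1 +
            ((v1 o - v1 e : ℤ) : ℝ) / a.1 + ((v2 e - v2 o : ℤ) : ℝ) / a'.1 =
            (β e - sgn s1 (β a) - u1 e / e.1 - v1 e / a.1) -
            (β e - sgn s2 (β a') - u2 e / e.1 - v2 e / a'.1) -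
            (β o - sgn s1 (β a) - u1 o / o.1 - v1 o / a.1) +
            (β o - sgn s2 (β a') - u2 o / o.1 - v2 o / a'.1) := by
          push_cast
          ring
        rw [e1]
        have e2 : (20 : ℝ) / N = 5 / N + 5 / N + 5 / N + 5 / N := by ring
        rw [e2]
        rw [abs_lt] at k1 k2 k3 k4 ⊢
        constructor <;> linarith
      · have g1 := hB e.1 (hEp e (hE3E e heE3))
        have g2 := hB o.1 (hEp o (hE3E o hoE3))
        have g3 := hB a.1 (hEp a haE)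
        have g4 := hB a'.1 (hEp a' ha'E)
        rw [div_mul_eq_mul_div, div_le_one hN0]
        have g5 : (e.1 : ℝ) * o.1 * (a.1 * a'.1) ≤ B ^ 4 :=
          mul4_le (Nat.cast_nonneg _) (Nat.cast_nonneg _) (Nat.cast_nonneg _) (Nat.cast_nonneg _)
            g1 g2 g3 g4
        have g7 : (0 : ℝ) ≤ B ^ 4 := hB4n
        linarith
    obtain ⟨k, hk⟩ := hdv
    refine ⟨u1 e - k * e.1, ?_⟩
    have hk' : (v1 o : ℝ) - v1 e = a.1 * k := by exact_mod_cast hk
    have ha0 : (a.1 : ℝ) ≠ 0 := by exact_mod_cast (hEprime a haE).pos.ne'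
    have he0 : (e.1 : ℝ) ≠ 0 := by exact_mod_cast (hEprime e (hE3E e heE3)).pos.ne'
    have hθe : θ e = β e - sgn s1 (β a) - u1 e / e.1 - v1 e / a.1 := by
      rw [hθ]
      simp only
      rw [hle.1]
    have e3 : β e - α - ((u1 e - k * e.1 : ℤ) : ℝ) / e.1 = θ e - θ o := by
      rw [hθe, hα]
      have e4 : (v1 o : ℝ) / a.1 = v1 e / a.1 + k := by
        field_simp
        linarith
      rw [e4]
      push_cast
      field_simp
      ring
    rw [e3]
    have e5 : |(θ e * N + 5) * 100 - (θ o * N + 5) * 100| < 1 := by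
      have c1 : ⌊(θ e * N + 5) * 100⌋₊ = ⌊(θ o * N + 5) * 100⌋₊ := by
        have c2 := hle.2.2
        have c3 := hlo.2.2
        rw [hcell] at c2 c3
        exact c2.trans c3.symm
      have d1 := Nat.floor_le (cell_pos (hθb e heE3)).1
      have d2 := Nat.lt_floor_add_one ((θ e * N + 5) * 100)
      have d3 := Nat.floor_le (cell_pos (hθb o hoE3)).1
      have d4 := Nat.lt_floor_add_one ((θ o * N + 5) * 100)
      rw [c1] at d1 d2
      rw [abs_lt]
      constructor <;> linarith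
    have e6 : (θ e * N + 5) * 100 - (θ o * N + 5) * 100 = (θ e - θ o) * (100 * N) := by ring
    rw [e6, abs_mul, abs_of_pos (by positivity : (0 : ℝ) < 100 * N)] at e5
    rw [le_div_iff₀ (by positivity)]
    exact e5.le
  -- one element for which the mean over the window is large
  have hT'P : T' ⊆ P.sigma (fun q => range q) := by
    intro e he
    exact hEP (hE3E e (hTE3 e (mem_filter.1 he).1))
  have hex : ∃ e ∈ T', ‖A2 (FF f α) N 1 0 e.1 e.2 - A1 (FF f α) N 1 0‖ < 4 / 100 := by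
    by_contra h
    push Not at h
    have h3 := markov (FF f α) (norm_FF hf α) N 1 0 le_rfl P hP hB hB2N hN0' (4 / 100) (by norm_num) T' hT'P (fun e he hd => by
        have h4 := hEprime e (hE3E e (hTE3 e (mem_filter.1 he).1))
        exact h4.one_lt.ne' (Nat.dvd_one.1 hd)) h
    rw [show (53 : ℝ) / (4 / 100) ^ 2 = 33125 by norm_num] at h3
    linarith
  obtain ⟨e, heT', he⟩ := hex
  have heE := hE3E e (hTE3 e (mem_filter.1 heT').1)
  obtain ⟨b, hb⟩ := hcomm e heT'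
  have hs := hsize e.1 (hEp e heE)
  have h3 := shift f hf N e.1 e.2 hs.1 hs.2.1 α (β e) b hb
  have h4 := hβ2 e heE
  have h5 : A2 (FF f α) N 1 0 e.1 e.2 = A1 (FF f α) N e.1 e.2 := by
    unfold A2 A1
    simp
  rw [h5] at he
  have h6 := norm_sub_norm_le (A1 (FF f α) N e.1 e.2) (A1 (FF f α) N 1 0)
  obtain ⟨i, hi⟩ := hcov α (by linarith)
  have h7 := hβ1 e heE i b
  have h8 : nd (β e - S i - b / e.1) ≤ nd (α - S i) + nd (β e - α - b / e.1) := by
    have := nd_add_le (α - S i) (β e - α - b / e.1)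
    have h9 : α - S i + (β e - α - b / e.1) = β e - S i - b / e.1 := by ring
    rwa [h9] at this
  have h10 := (nd_le_abs (β e - α - b / e.1)).trans hb
  have h11 : c₁ / N ≤ c₀ / N + 1 / (100 * N) := by linarith
  have h12 : c₀ / N + 1 / (100 * N) = (c₀ + 1 / 100) / N := by field_simp
  rw [h12, div_le_div_iff_of_pos_right hN0] at h11
  linarith

end Pool.Agent.H87.ES
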