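import Pool.Agent.H87.ES.Sieve

/-!
# The means over the classes modulo a prime number are near the mean
-/

set_option autoImplicit false

namespace Pool.Agent.H87.ES

open Finset Pool.Agent.H27.LS

/-- the mean of `F` over the class `Q ∣ r + t` of the window `t < N` -/
noncomputable def A1 (F : ℕ → ℂ) (N Q r : ℕ) : ℂ :=
  ((Q : ℂ) / N) * ∑ t ∈ (range N).filter (fun t => Q ∣ r + t), F t

/-- the mean of `F` over the intersection of the classes `Q ∣ r + t`, `q ∣ s + t` -/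
noncomputable def A2 (F : ℕ → ℂ) (N Q r q s : ℕ) : ℂ :=
  ((Q : ℂ) * q / N) * ∑ t ∈ (range N).filter (fun t => Q ∣ r + t ∧ q ∣ s + t), F t

lemma A2_comm (F : ℕ → ℂ) (N Q r q s : ℕ) : A2 F N Q r q s = A2 F N q s Q r := by
  unfold A2
  rw [mul_comm (Q : ℂ) q]
  congr 2
  ext t
  simp only [mem_filter]
  tauto

lemma exists_t0 (Q r : ℕ) (hQ : 0 < Q) : ∃ t0 < Q, Q ∣ r + t0 := by
  refine ⟨(Q - r % Q) % Q, Nat.mod_lt _ hQ, ?_⟩
  rw [Nat.dvd_iff_mod_eq_zero, Nat.add_mod_mod]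
  have h := Nat.div_add_mod r Q
  have h2 := Nat.mod_lt r hQ
  have h3 : r + (Q - r % Q) = Q * (r / Q + 1) := by
    rw [mul_add, mul_one]
    omega
  rw [h3, Nat.mul_mod_right]

lemma enum {Q r t0 : ℕ} (N : ℕ) (h0 : t0 < Q) (hd : Q ∣ r + t0) (R : ℕ → Prop)
    [DecidablePred R] (F : ℕ → ℂ) :
    ∑ t ∈ (range N).filter (fun t => Q ∣ r + t ∧ R t), F t =
      ∑ k ∈ (range (N / Q + 1)).filter (fun k => R (t0 + Q * k)),
        (if t0 + Q * k < N then F (t0 + Q * k) else 0) := by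
  have hQ : 0 < Q := by omega
  rw [← Finset.sum_filter]
  have hmod : ∀ t, Q ∣ r + t → t0 + Q * (t / Q) = t := by
    intro t ht
    have h1 : r + t ≡ r + t0 [MOD Q] :=
      ((Nat.modEq_zero_iff_dvd.2 ht).trans (Nat.modEq_zero_iff_dvd.2 hd).symm)
    have h2 : t % Q = t0 := by
      have := Nat.ModEq.add_left_cancel' r h1
      rw [Nat.ModEq, Nat.mod_eq_of_lt h0] at this
      exact this
    have h3 := Nat.div_add_mod t Q
    omega
  refine Finset.sum_bij' (fun t _ => t / Q) (fun k _ => t0 + Q * k) ?_ ?_ ?_ ?_ ?_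
  · intro t ht
    simp only [mem_filter, mem_range] at ht ⊢
    rw [hmod t ht.2.1]
    exact ⟨⟨Nat.lt_succ_of_le (Nat.div_le_div_right ht.1.le), ht.2.2⟩, ht.1⟩
  · intro k hk
    simp only [mem_filter, mem_range] at hk ⊢
    refine ⟨hk.2, ?_, hk.1.2⟩
    rw [← add_assoc]
    exact Dvd.dvd.add hd (dvd_mul_right _ _)
  · intro t ht
    simp only [mem_filter, mem_range] at ht
    exact hmod t ht.2.1
  · intro k hk
    show (t0 + Q * k) / Q = k
    rw [Nat.add_mul_div_left _ _ hQ, Nat.div_eq_of_lt h0, zero_add]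
  · intro t ht
    simp only [mem_filter, mem_range] at ht
    rw [hmod t ht.2.1]

/-- The large sieve for class means. -/
lemma lsv (F : ℕ → ℂ) (hF : ∀ t, ‖F t‖ ≤ 1) (N Q r : ℕ) (hQ : 1 ≤ Q) (P : Finset ℕ)
    (hP : ∀ p ∈ P, p.Prime) (hPQ : ∀ p ∈ P, ¬ p ∣ Q) {B : ℝ} (hB : ∀ p ∈ P, (p : ℝ) ≤ B)
    (hN : Q * B ^ 2 ≤ N) (hQN : Q ≤ N) :
    ∑ p ∈ P, (1 / (p : ℝ)) * ∑ s ∈ range p, ‖A2 F N Q r p s - A1 F N Q r‖ ^ 2 ≤ 53 := by
  obtain ⟨t0, h0, hd⟩ := exists_t0 Q r hQ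
  set K := N / Q + 1 with hK
  set a : ℕ → ℂ := fun k => if t0 + Q * k < N then F (t0 + Q * k) else 0 with ha
  have hQ0 : (0 : ℝ) < Q := by exact_mod_cast hQ
  have hN0 : (0 : ℝ) < N := lt_of_lt_of_le hQ0 (by exact_mod_cast hQN)
  have ha1 : ∀ k, ‖a k‖ ≤ 1 := by
    intro k
    simp only [ha]
    split_ifs
    · exact hF _
    · simp
  have h1 : ∀ p s : ℕ, A2 F N Q r p s - A1 F N Q r = ((Q : ℂ) / N) *
      ((p : ℂ) * ∑ k ∈ (range K).filter (fun k => p ∣ s + (t0 + Q * k)), a k -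
        ∑ k ∈ range K, a k) := by
    intro p s
    unfold A1 A2
    rw [enum N h0 hd (fun t => p ∣ s + t) F]
    have h2 := enum N h0 hd (fun _ => True) F
    simp only [and_true, Finset.filter_true] at h2
    rw [h2]
    ring
  have h2 : ∀ p ∈ P, (1 / (p : ℝ)) * ∑ s ∈ range p, ‖A2 F N Q r p s - A1 F N Q r‖ ^ 2 =
      ((Q : ℝ) / N) ^ 2 * ∑ b ∈ Ico 1 p, ‖trig a K ((b : ℝ) / p)‖ ^ 2 := by
    intro p hp
    have hp0 : (0 : ℝ) < p := by exact_mod_cast (hP p hp).pos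
    have h3 : ∀ s ∈ range p, ‖A2 F N Q r p s - A1 F N Q r‖ ^ 2 = ((Q : ℝ) / N) ^ 2 *
        ‖(p : ℂ) * ∑ k ∈ (range K).filter (fun k => p ∣ s + (t0 + Q * k)), a k -
        ∑ k ∈ range K, a k‖ ^ 2 := by
      intro s _
      rw [h1, norm_mul, mul_pow]
      congr 2
      rw [norm_div, Complex.norm_natCast, Complex.norm_natCast]
    rw [Finset.sum_congr rfl h3, ← Finset.mul_sum, one_prime p (hP p hp) K a t0 Q (hPQ p hp)]
    field_simp
  rw [Finset.sum_congr rfl h2, ← Finset.mul_sum]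
  have h4 := sieve P hP hB K a
  have h5 : ∑ k ∈ range K, ‖a k‖ ^ 2 ≤ K := by
    calc ∑ k ∈ range K, ‖a k‖ ^ 2 ≤ ∑ k ∈ range K, (1 : ℝ) :=
          Finset.sum_le_sum fun k _ => pow_le_one₀ (norm_nonneg _) (ha1 k)
      _ = K := by simp
  have h6 : (Q : ℝ) * K ≤ 2 * N := by
    have h7 : Q * K ≤ 2 * N := by
      rw [hK, mul_add, mul_one]
      have := Nat.mul_div_le N Q
      omega
    exact_mod_cast h7
  have hB2 : (0 : ℝ) ≤ B ^ 2 := sq_nonneg B
  have hpi := Real.pi_pos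
  have hpi2 := Real.pi_lt_d2
  calc ((Q : ℝ) / N) ^ 2 * ∑ p ∈ P, ∑ b ∈ Ico 1 p, ‖trig a K ((b : ℝ) / p)‖ ^ 2
      ≤ ((Q : ℝ) / N) ^ 2 * ((B ^ 2 + 4 * Real.pi * K) * K) := by
        refine mul_le_mul_of_nonneg_left (h4.trans ?_) (by positivity)
        exact mul_le_mul_of_nonneg_left h5 (by positivity)
    _ = (Q * B ^ 2 / N + 4 * Real.pi * (Q * K / N)) * (Q * K / N) := by
        field_simp
    _ ≤ (1 + 4 * Real.pi * 2) * 2 := by
        have h8 : (Q : ℝ) * K / N ≤ 2 := by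
          rw [div_le_iff₀ hN0]
          exact h6
        have h9 : (Q : ℝ) * B ^ 2 / N ≤ 1 := by
          rw [div_le_iff₀ hN0, one_mul]
          exact hN
        have h10 : (0 : ℝ) ≤ Q * K / N := by positivity
        refine mul_le_mul ?_ h8 h10 (by positivity)
        have : 4 * Real.pi * (Q * K / N) ≤ 4 * Real.pi * 2 :=
          mul_le_mul_of_nonneg_left h8 (by positivity)
        linarith
    _ ≤ 53 := by linarith

end Pool.Agent.H87.ES
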