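import Pool.Agent.H87.ES.Lsv
import Pool.Agent.H28.EN.Targets

/-!
# Two frequencies on one class
-/

set_option autoImplicit false

namespace Pool.Agent.H87.ES

open Finset Pool.Agent.H6.N4D
open Pool.Agent.H28.EN (T_FAR G)

/-- the real sequence `f` times the wave of frequency `-β` -/
noncomputable def FF (f : ℕ → ℝ) (β : ℝ) (t : ℕ) : ℂ := (f t : ℂ) * ee (-(β * t))

lemma norm_FF {f : ℕ → ℝ} (hf : ∀ t, |f t| ≤ 1) (β : ℝ) (t : ℕ) : ‖FF f β t‖ ≤ 1 := by
  unfold FF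
  rw [norm_mul, norm_ee, mul_one, Complex.norm_real]
  exact hf t

/-- a phase which makes a number real -/
lemma exists_phase (z : ℂ) : ∃ ψ : ℝ, (ee ψ * z).re = ‖z‖ := by
  refine ⟨-(z.arg / (2 * Real.pi)), ?_⟩
  have h1 : ee (-(z.arg / (2 * Real.pi))) = Complex.exp (-(z.arg * Complex.I)) := by
    unfold ee
    congr 1
    have h2 : (2 * Real.pi * -(z.arg / (2 * Real.pi)) : ℝ) = -z.arg := by
      field_simp
    rw [h2]
    push_cast
    ring
  have h2 : ee (-(z.arg / (2 * Real.pi))) * z = ‖z‖ := by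
    rw [h1]
    nth_rewrite 2 [← Complex.norm_mul_exp_arg_mul_I z]
    rw [mul_left_comm, ← Complex.exp_add]
    simp
  rw [h2]
  simp

lemma ee_re (x : ℝ) : (ee x).re = Real.cos (2 * Real.pi * x) := by
  unfold ee
  rw [Complex.exp_ofReal_mul_I_re]

/-- the correlation `G` of a class -/
lemma G_eq (f : ℕ → ℝ) (N Q r : ℕ) (hQ : 1 ≤ Q) (β ψ : ℝ) :
    G (fun m => if Q ∣ m then (Q : ℝ) * f (m - (r + Q)) else 0) N (r + Q - 1) β
      (-(ψ + β * ((r + Q : ℕ) : ℝ))) = (ee ψ * A1 (FF f β) N Q r).re := by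
  unfold G A1
  have h1 : Ioc (r + Q - 1) (r + Q - 1 + N) = (range N).map (addLeftEmbedding (r + Q)) := by
    ext m
    simp only [mem_Ioc, mem_map, mem_range, addLeftEmbedding_apply]
    constructor
    · intro h
      exact ⟨m - (r + Q), by omega, by omega⟩
    · rintro ⟨t, ht, rfl⟩
      omega
  rw [h1, Finset.sum_map]
  have h2 : ∀ t ∈ range N, ((fun m => if Q ∣ m then (Q : ℝ) * f (m - (r + Q)) else 0)
      (addLeftEmbedding (r + Q) t)) * Real.cos (2 * Real.pi *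
        (β * ((addLeftEmbedding (r + Q) t : ℕ) : ℝ) + -(ψ + β * ((r + Q : ℕ) : ℝ)))) =
      (if Q ∣ r + t then (Q : ℝ) * (ee ψ * FF f β t).re else 0) := by
    intro t _
    simp only [addLeftEmbedding_apply]
    have h3 : Q ∣ r + Q + t ↔ Q ∣ r + t := by
      rw [show r + Q + t = r + t + Q by ring]
      exact (Nat.dvd_add_left (dvd_refl Q))
    by_cases h4 : Q ∣ r + t
    · rw [if_pos (h3.2 h4), if_pos h4, Nat.add_sub_cancel_left]
      unfold FF
      rw [show ee ψ * ((f t : ℂ) * ee (-(β * t))) = (f t : ℂ) * (ee ψ * ee (-(β * t))) by ring,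
        ← ee_add, Complex.re_ofReal_mul, ee_re, mul_assoc]
      congr 2
      rw [← Real.cos_neg]
      congr 1
      push_cast
      ring
    · rw [if_neg (fun h => h4 (h3.1 h)), if_neg h4, zero_mul]
  rw [Finset.sum_congr rfl h2, ← Finset.sum_filter, ← Finset.mul_sum, ← Complex.re_sum,
    ← Finset.mul_sum]
  have h5 : ee ψ * ((Q : ℂ) / N * ∑ t ∈ (range N).filter (fun t => Q ∣ r + t), FF f β t) =
      ((Q : ℝ) / N : ℝ) * (ee ψ * ∑ t ∈ (range N).filter (fun t => Q ∣ r + t), FF f β t) := by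
    push_cast
    ring
  rw [h5, Complex.re_ofReal_mul]
  ring

/-- Two frequencies with large correlations on one class are close. -/
lemma far2 (hFAR : T_FAR) (f : ℕ → ℝ) (hf : ∀ t, |f t| ≤ 1) (N Q r : ℕ) (hQ : 1 ≤ Q)
    (hN : 11 * Q ≤ N) (β β' : ℝ) (h1 : 6 / 10 ≤ ‖A1 (FF f β) N Q r‖)
    (h2 : 6 / 10 ≤ ‖A1 (FF f β') N Q r‖) :
    nd (Q * (β - β')) < 5 * (Q : ℝ) / N ∨ nd (Q * (β + β')) < 5 * (Q : ℝ) / N := by
  by_contra h
  rw [not_or, not_lt, not_lt] at h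
  obtain ⟨ψ, hψ⟩ := exists_phase (A1 (FF f β) N Q r)
  obtain ⟨ψ', hψ'⟩ := exists_phase (A1 (FF f β') N Q r)
  have hQ0 : (0 : ℝ) < Q := by exact_mod_cast hQ
  have hN0 : (0 : ℝ) < N := by
    have : 0 < N := by omega
    exact_mod_cast this
  have h3 := hFAR (fun m => if Q ∣ m then (Q : ℝ) * f (m - (r + Q)) else 0) Q N (r + Q - 1)
    β (-(ψ + β * ((r + Q : ℕ) : ℝ))) β' (-(ψ' + β' * ((r + Q : ℕ) : ℝ))) hQ (by omega) (by
      intro m
      by_cases hm : Q ∣ m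
      · simp only [if_pos hm]
        rw [abs_mul, abs_of_pos hQ0]
        nlinarith [hf (m - (r + Q))]
      · simp [if_neg hm]) h.1 h.2
  rw [G_eq f N Q r hQ, G_eq f N Q r hQ, hψ, hψ'] at h3
  have h4 : (Q : ℝ) / N ≤ 1 / 11 := by
    rw [div_le_div_iff₀ hN0 (by norm_num)]
    have : ((11 * Q : ℕ) : ℝ) ≤ N := by exact_mod_cast hN
    push_cast at this
    linarith
  linarith

/-- a fraction with denominator `q q'` is a sum of two fractions -/
lemma split_frac {q q' : ℕ} (hq : 0 < q) (hq' : 0 < q') (hc : Nat.Coprime q q') (b : ℤ) :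
    ∃ u v : ℤ, (b : ℝ) / (q * q') = u / q + v / q' := by
  obtain ⟨x, y, hxy⟩ : ∃ x y : ℤ, x * q + y * q' = 1 := by
    have h := (Nat.isCoprime_iff_coprime.2 hc)
    obtain ⟨x, y, h⟩ := h
    exact ⟨x, y, h⟩
  refine ⟨b * y, b * x, ?_⟩
  have h0 : (q : ℝ) ≠ 0 := by exact_mod_cast hq.ne'
  have h0' : (q' : ℝ) ≠ 0 := by exact_mod_cast hq'.ne'
  have h1 : (x : ℝ) * q + y * q' = 1 := by exact_mod_cast hxy
  field_simp
  push_cast
  linear_combination (-(b : ℝ)) * h1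

/-- from `nd` to fractions -/
lemma near {q q' N : ℕ} (hq : 0 < q) (hq' : 0 < q') (hN : 0 < N) (hc : Nat.Coprime q q') (x : ℝ)
    (h : nd (((q * q' : ℕ) : ℝ) * x) < 5 * ((q * q' : ℕ) : ℝ) / N) :
    ∃ u v : ℤ, |x - u / q - v / q'| < 5 / N := by
  obtain ⟨b, hb⟩ := exists_int (((q * q' : ℕ) : ℝ) * x)
  obtain ⟨u, v, huv⟩ := split_frac hq hq' hc b
  refine ⟨u, v, ?_⟩
  have h0 : (0 : ℝ) < q := by exact_mod_cast hq
  have h0' : (0 : ℝ) < q' := by exact_mod_cast hq'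
  have hN0 : (0 : ℝ) < N := by exact_mod_cast hN
  rw [sub_sub, ← huv]
  rw [← hb] at h
  push_cast at h
  have h1 : (q : ℝ) * q' * x - b = q * q' * (x - b / (q * q')) := by
    field_simp
  rw [h1, abs_mul, abs_of_pos (by positivity : (0 : ℝ) < q * q')] at h
  have h2 : 5 * ((q : ℝ) * q') / N = q * q' * (5 / N) := by ring
  rw [h2] at h
  exact lt_of_mul_lt_mul_left h (by positivity)

/-- two conditions are one condition -/
lemma crt_class {q q' : ℕ} (hc : Nat.Coprime q q') (r s : ℕ) :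
    ∃ x : ℕ, ∀ t, (q ∣ r + t ∧ q' ∣ s + t) ↔ q * q' ∣ x + t := by
  obtain ⟨x, hx1, hx2⟩ := Nat.chineseRemainder hc r s
  refine ⟨x, fun t => ?_⟩
  have h1 : q ∣ r + t ↔ q ∣ x + t := by
    rw [← Nat.modEq_zero_iff_dvd, ← Nat.modEq_zero_iff_dvd]
    have := hx1.add_right t
    exact ⟨fun h => this.trans h, fun h => this.symm.trans h⟩
  have h2 : q' ∣ s + t ↔ q' ∣ x + t := by
    rw [← Nat.modEq_zero_iff_dvd, ← Nat.modEq_zero_iff_dvd]
    have := hx2.add_right t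
    exact ⟨fun h => this.trans h, fun h => this.symm.trans h⟩
  rw [h1, h2]
  exact ⟨fun h => hc.mul_dvd_of_dvd_of_dvd h.1 h.2,
    fun h => ⟨(dvd_mul_right _ _).trans h, (dvd_mul_left _ _).trans h⟩⟩

lemma A2_eq_A1 {q q' : ℕ} (hc : Nat.Coprime q q') (r s N : ℕ) :
    ∃ x : ℕ, ∀ F : ℕ → ℂ, A2 F N q r q' s = A1 F N (q * q') x := by
  obtain ⟨x, hx⟩ := crt_class hc r s
  refine ⟨x, fun F => ?_⟩
  unfold A2 A1
  rw [Finset.filter_congr fun t _ => hx t]
  push_cast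
  rfl

/-- Two frequencies with large correlations on the intersection of two classes. -/
lemma pair (hFAR : T_FAR) (f : ℕ → ℝ) (hf : ∀ t, |f t| ≤ 1) {N q q' : ℕ} (hq : 0 < q)
    (hq' : 0 < q') (hc : Nat.Coprime q q') (hN : 11 * (q * q') ≤ N) (r s : ℕ) (β β' : ℝ)
    (h1 : 6 / 10 ≤ ‖A2 (FF f β) N q r q' s‖) (h2 : 6 / 10 ≤ ‖A2 (FF f β') N q' s q r‖) :
    ∃ σ : Bool, ∃ u v : ℤ, |β - (if σ then β' else -β') - u / q - v / q'| < 5 / N := by
  obtain ⟨x, hx⟩ := A2_eq_A1 hc r s N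
  rw [hx] at h1
  rw [A2_comm, hx] at h2
  have hQ : 1 ≤ q * q' := Nat.mul_pos hq hq'
  have hN0 : 0 < N := by omega
  rcases far2 hFAR f hf N (q * q') x hQ hN β β' h1 h2 with h | h
  · obtain ⟨u, v, huv⟩ := near hq hq' hN0 hc _ h
    exact ⟨true, u, v, by simpa using huv⟩
  · obtain ⟨u, v, huv⟩ := near hq hq' hN0 hc _ h
    exact ⟨false, u, v, by simpa using huv⟩

/-- A sum of four fractions with different prime denominators which is small is zero. -/
lemma four_frac {q q' p p' : ℕ} (hq : q.Prime) (hq' : q'.Prime) (hp : p.Prime) (hp' : p'.Prime)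
    (h1 : p ≠ q) (h2 : p ≠ q') (h3 : p ≠ p') {a b c d : ℤ} {δ : ℝ}
    (h : |(a : ℝ) / q + b / q' + c / p + d / p'| < δ) (hδ : δ * (q * q' * (p * p')) ≤ 1) :
    (p : ℤ) ∣ c := by
  have e1 : (0 : ℝ) < q := by exact_mod_cast hq.pos
  have e2 : (0 : ℝ) < q' := by exact_mod_cast hq'.pos
  have e3 : (0 : ℝ) < p := by exact_mod_cast hp.pos
  have e4 : (0 : ℝ) < p' := by exact_mod_cast hp'.pos
  have h4 : |((a * (q' * p * p') + b * (q * p * p') + c * (q * q' * p') + d * (q * q' * p) : ℤ) : ℝ)|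
      < 1 := by
    have h5 : ((a * (q' * p * p') + b * (q * p * p') + c * (q * q' * p') +
        d * (q * q' * p) : ℤ) : ℝ) =
        (q * q' * (p * p')) * ((a : ℝ) / q + b / q' + c / p + d / p') := by
      push_cast
      field_simp
    rw [h5, abs_mul, abs_of_pos (by positivity : (0 : ℝ) < q * q' * (p * p'))]
    calc (q : ℝ) * q' * (p * p') * |(a : ℝ) / q + b / q' + c / p + d / p'|
        < q * q' * (p * p') * δ := mul_lt_mul_of_pos_left h (by positivity)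
      _ = δ * (q * q' * (p * p')) := mul_comm _ _
      _ ≤ 1 := hδ
  have h6 : a * (q' * p * p') + b * (q * p * p') + c * (q * q' * p') + d * (q * q' * p) = 0 := by
    rw [← Int.cast_abs] at h4
    exact Int.abs_lt_one_iff.1 (by exact_mod_cast h4)
  have h7 : (p : ℤ) ∣ c * (q * q' * p') := by
    refine ⟨-(a * (q' * p') + b * (q * p') + d * (q * q')), ?_⟩
    linear_combination h6
  have hpi : Prime (p : ℤ) := Nat.prime_iff_prime_int.1 hp
  rcases hpi.dvd_or_dvd h7 with h8 | h8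
  · exact h8
  · exfalso
    rcases hpi.dvd_or_dvd h8 with h9 | h9
    · rcases hpi.dvd_or_dvd h9 with h10 | h10
      · exact h1 ((Nat.prime_dvd_prime_iff_eq hp hq).1 (by exact_mod_cast h10))
      · exact h2 ((Nat.prime_dvd_prime_iff_eq hp hq').1 (by exact_mod_cast h10))
    · exact h3 ((Nat.prime_dvd_prime_iff_eq hp hp').1 (by exact_mod_cast h9))

end Pool.Agent.H87.ES
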