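import Pool.Agent.H27.LS.Additive
import Pool.Agent.H6.N4D.Defs

/-!
# The large sieve for the means on residue classes
-/

set_option autoImplicit false

namespace Pool.Agent.H87.ES

open Finset Pool.Agent.H27.LS

open ComplexConjugate

/-- Parseval for the additive characters. -/
lemma parseval {p : ℕ} [NeZero p] (g : ZMod p → ℂ) :
    ∑ x, ‖∑ b, g b * ZMod.stdAddChar (b * x)‖ ^ 2 = p * ∑ b, ‖g b‖ ^ 2 := by
  have h1 : ∀ x : ZMod p, ((‖∑ b, g b * ZMod.stdAddChar (b * x)‖ ^ 2 : ℝ) : ℂ) =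
      ∑ b, ∑ b', g b * conj (g b') * ZMod.stdAddChar (x * (b - b')) := by
    intro x
    rw [← Complex.normSq_eq_norm_sq, ← Complex.mul_conj, map_sum, Finset.sum_mul_sum]
    refine Finset.sum_congr rfl fun b _ => Finset.sum_congr rfl fun b' _ => ?_
    rw [map_mul (starRingEnd ℂ), ← AddChar.map_neg_eq_conj]
    have : x * (b - b') = b * x + -(b' * x) := by ring
    rw [this, AddChar.map_add_eq_mul]
    ring
  have h2 : ((∑ x, ‖∑ b, g b * ZMod.stdAddChar (b * x)‖ ^ 2 : ℝ) : ℂ) =
      ((p * ∑ b, ‖g b‖ ^ 2 : ℝ) : ℂ) := by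
    push_cast
    have h3 : ∀ x : ZMod p, (‖∑ b, g b * ZMod.stdAddChar (b * x)‖ : ℂ) ^ 2 =
        ∑ b, ∑ b', g b * conj (g b') * ZMod.stdAddChar (x * (b - b')) := by
      intro x
      rw [← h1 x]
      push_cast
      rfl
    rw [Finset.sum_congr rfl fun x _ => h3 x, Finset.sum_comm, Finset.mul_sum]
    refine Finset.sum_congr rfl fun b _ => ?_
    rw [Finset.sum_comm, Finset.sum_eq_single b]
    · rw [← Finset.mul_sum, AddChar.sum_mulShift _ (ZMod.isPrimitive_stdAddChar p), if_pos (sub_self b),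
        ZMod.card, Complex.mul_conj, Complex.normSq_eq_norm_sq]
      push_cast
      ring
    · intro b' _ hb
      rw [← Finset.mul_sum, AddChar.sum_mulShift _ (ZMod.isPrimitive_stdAddChar p),
        if_neg (sub_ne_zero.2 (Ne.symm hb))]
      simp
    · intro h
      exact absurd (Finset.mem_univ _) h
  exact_mod_cast h2

/-- The classes modulo one prime number. -/
lemma one_prime (p : ℕ) (hp : p.Prime) (K : ℕ) (a : ℕ → ℂ) (c Q : ℕ) (hQ : ¬ p ∣ Q) :
    ∑ r ∈ range p, ‖(p : ℂ) * ∑ k ∈ (range K).filter (fun k => p ∣ r + (c + Q * k)), a k -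
      ∑ k ∈ range K, a k‖ ^ 2 = p * ∑ b ∈ Ico 1 p, ‖trig a K ((b : ℝ) / p)‖ ^ 2 := by
  classical
  have : Fact p.Prime := ⟨hp⟩
  have : NeZero p := ⟨hp.ne_zero⟩
  set S : ZMod p → ℂ := fun y => ∑ k ∈ range K, a k * ZMod.stdAddChar (y * (k : ZMod p)) with hS
  set g : ZMod p → ℂ := fun b => if b = 0 then 0 else S (b * (Q : ZMod p)) with hg
  have hQ0 : (Q : ZMod p) ≠ 0 := by rwa [Ne, ZMod.natCast_eq_zero_iff]
  have h0 : ∀ x : ZMod p, ∑ b ∈ univ.erase (0 : ZMod p), (ZMod.stdAddChar (b * x) : ℂ) =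
      (if x = 0 then (p : ℂ) else 0) - 1 := by
    intro x
    have h := AddChar.sum_mulShift x (ZMod.isPrimitive_stdAddChar p)
    rw [← Finset.add_sum_erase _ _ (Finset.mem_univ (0 : ZMod p))] at h
    simp only [zero_mul, AddChar.map_zero_eq_one, ZMod.card] at h
    rw [eq_sub_iff_add_eq, add_comm]
    rw [h]
    split_ifs <;> simp
  have h1 : ∀ r ∈ range p,
      (p : ℂ) * ∑ k ∈ (range K).filter (fun k => p ∣ r + (c + Q * k)), a k - ∑ k ∈ range K, a k =
      ∑ b, g b * ZMod.stdAddChar (b * ((r : ZMod p) + (c : ZMod p))) := by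
    intro r _
    have h2 : ∑ b, g b * (ZMod.stdAddChar (b * ((r : ZMod p) + (c : ZMod p))) : ℂ) =
        ∑ b ∈ univ.erase (0 : ZMod p), S (b * (Q : ZMod p)) * ZMod.stdAddChar (b * ((r : ZMod p) + (c : ZMod p))) := by
      rw [← Finset.add_sum_erase _ _ (Finset.mem_univ (0 : ZMod p))]
      have : g 0 = 0 := by simp [hg]
      rw [this, zero_mul, zero_add]
      refine Finset.sum_congr rfl fun b hb => ?_
      simp only [hg]
      rw [if_neg (Finset.ne_of_mem_erase hb)]
    rw [h2]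
    have h3 : ∀ b ∈ univ.erase (0 : ZMod p),
        S (b * (Q : ZMod p)) * (ZMod.stdAddChar (b * ((r : ZMod p) + (c : ZMod p))) : ℂ) =
        ∑ k ∈ range K, a k * ZMod.stdAddChar (b * ((r : ZMod p) + (c : ZMod p) + (Q : ZMod p) * (k : ZMod p))) := by
      intro b _
      simp only [hS]
      rw [Finset.sum_mul]
      refine Finset.sum_congr rfl fun k _ => ?_
      rw [mul_assoc, ← AddChar.map_add_eq_mul]
      congr 2
      ring
    rw [Finset.sum_congr rfl h3, Finset.sum_comm, Finset.mul_sum, Finset.sum_filter,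
      ← Finset.sum_sub_distrib]
    refine Finset.sum_congr rfl fun k _ => ?_
    rw [← Finset.mul_sum, h0]
    have h4 : ((r : ZMod p) + (c : ZMod p) + (Q : ZMod p) * (k : ZMod p) = 0) ↔ p ∣ r + (c + Q * k) := by
      rw [← ZMod.natCast_eq_zero_iff]
      push_cast
      rw [add_assoc]
    by_cases h5 : p ∣ r + (c + Q * k)
    · rw [if_pos h5, if_pos (h4.2 h5)]
      ring
    · rw [if_neg h5, if_neg (fun h => h5 (h4.1 h))]
      ring
  rw [Finset.sum_congr rfl fun r hr => by rw [h1 r hr]]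
  have h6 : ∑ r ∈ range p, ‖∑ b, g b * (ZMod.stdAddChar (b * ((r : ZMod p) + (c : ZMod p))) : ℂ)‖ ^ 2 =
      ∑ x : ZMod p, ‖∑ b, g b * (ZMod.stdAddChar (b * x) : ℂ)‖ ^ 2 := by
    refine Finset.sum_bij (fun (r : ℕ) _ => (r : ZMod p) + (c : ZMod p)) (fun _ _ => Finset.mem_univ _) ?_ ?_
      (fun _ _ => rfl)
    · intro b hb d hd h
      rw [Finset.mem_range] at hb hd
      have := (ZMod.natCast_eq_natCast_iff' b d p).1 (add_right_cancel h)
      rwa [Nat.mod_eq_of_lt hb, Nat.mod_eq_of_lt hd] at this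
    · intro x _
      refine ⟨(x - (c : ZMod p)).val, ?_, ?_⟩
      · rw [Finset.mem_range]
        exact ZMod.val_lt _
      · simp
  rw [h6, parseval]
  congr 1
  have h7 : ∑ b, ‖g b‖ ^ 2 = ∑ b ∈ univ.erase (0 : ZMod p), ‖S b‖ ^ 2 := by
    rw [← Finset.add_sum_erase _ _ (Finset.mem_univ (0 : ZMod p))]
    have : g 0 = 0 := by simp [hg]
    rw [this, norm_zero, zero_pow two_ne_zero, zero_add]
    refine Finset.sum_bij (fun b _ => b * (Q : ZMod p)) ?_ ?_ ?_ ?_
    · intro b hb
      refine Finset.mem_erase.2 ⟨mul_ne_zero (Finset.ne_of_mem_erase hb) hQ0, Finset.mem_univ _⟩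
    · intro b _ d _ h
      exact mul_right_cancel₀ hQ0 h
    · intro b hb
      refine ⟨b * (Q : ZMod p)⁻¹, Finset.mem_erase.2
        ⟨mul_ne_zero (Finset.ne_of_mem_erase hb) (inv_ne_zero hQ0), Finset.mem_univ _⟩, ?_⟩
      rw [mul_assoc, inv_mul_cancel₀ hQ0, mul_one]
    · intro b hb
      simp only [hg]
      rw [if_neg (Finset.ne_of_mem_erase hb)]
  rw [h7]
  symm
  refine Finset.sum_bij (fun (b : ℕ) _ => (b : ZMod p)) ?_ ?_ ?_ ?_
  · intro b hb
    rw [Finset.mem_Ico] at hb
    refine Finset.mem_erase.2 ⟨?_, Finset.mem_univ _⟩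
    rw [Ne, ZMod.natCast_eq_zero_iff]
    exact Nat.not_dvd_of_pos_of_lt hb.1 hb.2
  · intro b hb c hc h
    rw [Finset.mem_Ico] at hb hc
    have := (ZMod.natCast_eq_natCast_iff' b c p).1 h
    rwa [Nat.mod_eq_of_lt hb.2, Nat.mod_eq_of_lt hc.2] at this
  · intro b hb
    have hb' := Finset.ne_of_mem_erase hb
    refine ⟨b.val, ?_, ?_⟩
    · rw [Finset.mem_Ico]
      exact ⟨Nat.one_le_iff_ne_zero.2 (fun h => hb' ((ZMod.val_eq_zero b).1 h)), ZMod.val_lt b⟩
    · simp
  · intro b _
    rw [hS, trig]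
    congr 2
    refine Finset.sum_congr rfl fun n _ => ?_
    congr 1
    have h6 : ((b : ZMod p) * (n : ZMod p)) = (((b * n : ℕ) : ℤ) : ZMod p) := by push_cast; rfl
    rw [h6, ZMod.stdAddChar_coe]
    congr 1
    push_cast
    ring

/-- Fractions with prime denominators are separated: the large sieve. -/
lemma sieve (P : Finset ℕ) (hP : ∀ p ∈ P, p.Prime) {B : ℝ} (hB : ∀ p ∈ P, (p : ℝ) ≤ B) (K : ℕ)
    (a : ℕ → ℂ) : ∑ p ∈ P, ∑ b ∈ Ico 1 p, ‖trig a K ((b : ℝ) / p)‖ ^ 2 ≤
      (B ^ 2 + 4 * Real.pi * K) * ∑ k ∈ range K, ‖a k‖ ^ 2 := by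
  rcases P.eq_empty_or_nonempty with rfl | ⟨q0, hq0⟩
  · simp only [Finset.sum_empty]
    positivity
  have hK2 : 2 ≤ B := le_trans (by exact_mod_cast (hP q0 hq0).two_le) (hB q0 hq0)
  have hB0 : 0 < B := by linarith
  calc _ = ∑ x ∈ P.sigma (fun q => Ico 1 q), ‖trig a K ((x.2 : ℝ) / (x.1 : ℝ))‖ ^ 2 := by
        rw [Finset.sum_sigma]
    _ ≤ ((B ^ 2)⁻¹⁻¹ + 4 * Real.pi * K) * ∑ n ∈ range K, ‖a n‖ ^ 2 := by
        refine additive_large_sieve a K (by positivity) _
          (fun x : (_ : ℕ) × ℕ => (x.2 : ℝ) / (x.1 : ℝ)) ?_ ?_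
        · rintro ⟨q, b⟩ h
          simp only [Finset.mem_sigma, Finset.mem_Ico] at h ⊢
          have hq : (2 : ℝ) ≤ q := by exact_mod_cast (hP q h.1).two_le
          have hqK := hB q h.1
          have hb : (1 : ℝ) ≤ b := by exact_mod_cast h.2.1
          have hb' : (b : ℝ) + 1 ≤ q := by exact_mod_cast h.2.2
          have h1 : (B ^ 2)⁻¹ / 2 ≤ 1 / (q : ℝ) := by
            rw [div_eq_mul_inv, ← mul_inv, one_div]
            apply inv_anti₀ (by linarith)
            nlinarith
          constructor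
          · refine h1.trans ?_
            gcongr
          · have h2 : (b : ℝ) / q ≤ 1 - 1 / q := by
              rw [div_le_iff₀ (by linarith)]
              have : (1 - 1 / (q : ℝ)) * q = q - 1 := by
                field_simp
              rw [this]
              linarith
            linarith
        · rintro ⟨q, b⟩ h ⟨q', b'⟩ h' hne
          simp only [Finset.mem_sigma, Finset.mem_Ico] at h h' ⊢
          have hq : (2 : ℝ) ≤ q := by exact_mod_cast (hP q h.1).two_le
          have hq' : (2 : ℝ) ≤ q' := by exact_mod_cast (hP q' h'.1).two_le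
          have hqK := hB q h.1
          have hqK' := hB q' h'.1
          have h1 : (b : ℝ) / q - b' / q' = ((b * q' - b' * q : ℤ) : ℝ) / (q * q') := by
            push_cast
            field_simp
          have h2 : (b * q' - b' * q : ℤ) ≠ 0 := by
            intro h0
            have h3 : b * q' = b' * q := by
              have := sub_eq_zero.1 h0
              exact_mod_cast this
            have h4 : q ∣ b * q' := ⟨b', by rw [h3]; ring⟩
            rcases (Nat.Prime.dvd_mul (hP q h.1)).1 h4 with h5 | h5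
            · exact Nat.not_dvd_of_pos_of_lt h.2.1 h.2.2 h5
            · have h6 : q = q' := (Nat.prime_dvd_prime_iff_eq (hP q h.1) (hP q' h'.1)).1 h5
              subst h6
              have h7 : b = b' := Nat.eq_of_mul_eq_mul_right (hP q h.1).pos h3
              subst h7
              exact hne rfl
          rw [h1, abs_div]
          have h3 : (1 : ℝ) ≤ |((b * q' - b' * q : ℤ) : ℝ)| := by
            rw [← Int.cast_abs]
            exact_mod_cast Int.one_le_abs h2
          have h4 : |(q : ℝ) * q'| = q * q' := abs_of_pos (by positivity)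
          rw [h4, inv_eq_one_div]
          have h5 : (q : ℝ) * q' ≤ B ^ 2 := by
            rw [pow_two]
            gcongr
          gcongr
    _ = _ := by rw [inv_inv]

end Pool.Agent.H87.ES
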