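import Pool.Agent.H87.ES.Pair

/-!
# The deterministic lemma: frequencies far from those of the window survive on few classes
-/

set_option autoImplicit false

namespace Pool.Agent.H87.ES

open Finset Pool.Agent.H6.N4D
open Pool.Agent.H28.EN (T_FAR)

/-- An element in bad relation with few others. -/
lemma select {ι : Type*} (E F : Finset ι) (hFE : F ⊆ E) (wt : ι → ℝ)
    (hw : ∀ e, 0 ≤ wt e) (R : ι → ι → Prop) [∀ a b, Decidable (R a b)] (M1 : ℝ)
    (hR : ∀ e ∈ E, ∑ e' ∈ E.filter (fun e' => R e e'), wt e' ≤ M1)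
    (hF : ∑ e ∈ E, wt e ≤ 2 * ∑ e ∈ F, wt e) (hpos : 0 < ∑ e ∈ F, wt e) (hM : 0 ≤ M1) :
    ∃ a ∈ F, ∑ e' ∈ E.filter (fun e' => R a e' ∨ R e' a), wt e' < 3 * M1 + 1 := by
  by_contra hcon
  push Not at hcon
  have h1 : ∑ a ∈ F, wt a * (3 * M1 + 1) ≤
      ∑ a ∈ F, wt a * ∑ e' ∈ E.filter (fun e' => R a e' ∨ R e' a), wt e' :=
    Finset.sum_le_sum fun a ha => mul_le_mul_of_nonneg_left (hcon a ha) (hw a)
  have h2 : ∀ a, ∑ e' ∈ E.filter (fun e' => R a e' ∨ R e' a), wt e' ≤
      ∑ e' ∈ E.filter (fun e' => R a e'), wt e' + ∑ e' ∈ E.filter (fun e' => R e' a), wt e' := by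
    intro a
    rw [Finset.sum_filter, Finset.sum_filter, Finset.sum_filter, ← Finset.sum_add_distrib]
    refine Finset.sum_le_sum fun e' _ => ?_
    have := hw e'
    split_ifs with c1 c2 c3 c4 c5 <;> first | tauto | linarith
  have h3 : ∑ a ∈ F, wt a * ∑ e' ∈ E.filter (fun e' => R a e' ∨ R e' a), wt e' ≤
      ∑ a ∈ F, wt a * M1 + ∑ a ∈ F, wt a * ∑ e' ∈ E.filter (fun e' => R e' a), wt e' := by
    rw [← Finset.sum_add_distrib]
    refine Finset.sum_le_sum fun a ha => ?_
    rw [← mul_add]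
    refine mul_le_mul_of_nonneg_left ((h2 a).trans ?_) (hw a)
    gcongr
    exact hR a (hFE ha)
  have h4 : ∑ a ∈ F, wt a * ∑ e' ∈ E.filter (fun e' => R e' a), wt e' ≤
      ∑ e' ∈ E, wt e' * M1 := by
    calc ∑ a ∈ F, wt a * ∑ e' ∈ E.filter (fun e' => R e' a), wt e'
        ≤ ∑ a ∈ E, wt a * ∑ e' ∈ E.filter (fun e' => R e' a), wt e' :=
          Finset.sum_le_sum_of_subset_of_nonneg hFE fun a _ _ =>
            mul_nonneg (hw a) (Finset.sum_nonneg fun e' _ => hw e')
      _ = ∑ a ∈ E, ∑ e' ∈ E, (if R e' a then wt e' * wt a else 0) := by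
          refine Finset.sum_congr rfl fun a _ => ?_
          rw [Finset.sum_filter, Finset.mul_sum]
          refine Finset.sum_congr rfl fun e' _ => ?_
          split_ifs <;> ring
      _ = ∑ e' ∈ E, ∑ a ∈ E, (if R e' a then wt e' * wt a else 0) := Finset.sum_comm
      _ = ∑ e' ∈ E, wt e' * ∑ a ∈ E.filter (fun a => R e' a), wt a := by
          refine Finset.sum_congr rfl fun e' _ => ?_
          rw [Finset.sum_filter, Finset.mul_sum]
          refine Finset.sum_congr rfl fun a _ => ?_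
          split_ifs <;> ring
      _ ≤ ∑ e' ∈ E, wt e' * M1 :=
          Finset.sum_le_sum fun e' he => mul_le_mul_of_nonneg_left (hR e' he) (hw e')
  rw [← Finset.sum_mul] at h1 h3 h4
  have h5 : (∑ e ∈ E, wt e) * M1 ≤ (2 * ∑ e ∈ F, wt e) * M1 := mul_le_mul_of_nonneg_right hF hM
  nlinarith

/-- the mass of the elements with one prime number is at most one -/
lemma one_q (P : Finset ℕ) (q : ℕ) (hq : 0 < q) (T : Finset ((_ : ℕ) × ℕ))
    (hT : T ⊆ P.sigma (fun q => range q)) (h : ∀ e ∈ T, e.1 = q) :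
    ∑ e ∈ T, 1 / (e.1 : ℝ) ≤ 1 := by
  have h1 : T ⊆ ({q} : Finset ℕ).sigma (fun q => range q) := by
    intro e he
    have := hT he
    simp only [mem_sigma, mem_singleton] at this ⊢
    exact ⟨h e he, this.2⟩
  calc ∑ e ∈ T, 1 / (e.1 : ℝ) ≤ ∑ e ∈ ({q} : Finset ℕ).sigma (fun q => range q), 1 / (e.1 : ℝ) :=
        Finset.sum_le_sum_of_subset_of_nonneg h1 fun _ _ _ => by positivity
    _ = 1 := by
        rw [Finset.sum_sigma, Finset.sum_singleton]
        have : (q : ℝ) ≠ 0 := by exact_mod_cast hq.ne'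
        simp [this]

/-- Few classes have a mean far from the mean. -/
lemma markov (F : ℕ → ℂ) (hF : ∀ t, ‖F t‖ ≤ 1) (N Q r : ℕ) (hQ : 1 ≤ Q) (P : Finset ℕ)
    (hP : ∀ p ∈ P, p.Prime) {B : ℝ} (hB : ∀ p ∈ P, (p : ℝ) ≤ B)
    (hN : Q * B ^ 2 ≤ N) (hQN : Q ≤ N) (δ : ℝ) (hδ : 0 < δ) (T : Finset ((_ : ℕ) × ℕ))
    (hT : T ⊆ P.sigma (fun q => range q)) (hTQ : ∀ e ∈ T, ¬ e.1 ∣ Q)
    (h : ∀ e ∈ T, δ ≤ ‖A2 F N Q r e.1 e.2 - A1 F N Q r‖) :
    ∑ e ∈ T, 1 / (e.1 : ℝ) ≤ 53 / δ ^ 2 := by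
  rw [le_div_iff₀ (by positivity)]
  have h1 := lsv F hF N Q r hQ (P.filter (fun p => ¬ p ∣ Q)) (fun p hp => hP p (mem_filter.1 hp).1)
    (fun p hp => (mem_filter.1 hp).2) (fun p hp => hB p (mem_filter.1 hp).1) hN hQN
  refine le_trans ?_ h1
  have h2 : ∑ p ∈ P.filter (fun p => ¬ p ∣ Q), (1 / (p : ℝ)) *
      ∑ s ∈ range p, ‖A2 F N Q r p s - A1 F N Q r‖ ^ 2 =
      ∑ e ∈ (P.filter (fun p => ¬ p ∣ Q)).sigma (fun q => range q), (1 / (e.1 : ℝ)) *
        ‖A2 F N Q r e.1 e.2 - A1 F N Q r‖ ^ 2 := by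
    rw [Finset.sum_sigma]
    refine Finset.sum_congr rfl fun p _ => ?_
    rw [Finset.mul_sum]
  rw [h2, Finset.sum_mul]
  have h3 : T ⊆ (P.filter (fun p => ¬ p ∣ Q)).sigma (fun q => range q) := by
    intro e he
    have := hT he
    simp only [mem_sigma, mem_filter] at this ⊢
    exact ⟨⟨this.1, hTQ e he⟩, this.2⟩
  calc ∑ e ∈ T, 1 / (e.1 : ℝ) * δ ^ 2
      ≤ ∑ e ∈ T, (1 / (e.1 : ℝ)) * ‖A2 F N Q r e.1 e.2 - A1 F N Q r‖ ^ 2 := by
        refine Finset.sum_le_sum fun e he => ?_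
        have := h e he
        gcongr
    _ ≤ _ := Finset.sum_le_sum_of_subset_of_nonneg h3 fun _ _ _ => by positivity

/-- the number of elements of a class -/
lemma card_class (N Q r : ℕ) (hQ : 1 ≤ Q) :
    ((range N).filter (fun t => Q ∣ r + t)).card ≤ N / Q + 1 := by
  obtain ⟨t0, h0, hd⟩ := exists_t0 Q r hQ
  have h := enum N h0 hd (fun _ => True) (fun _ => 1)
  simp only [and_true, Finset.filter_true] at h
  have h1 : (((range N).filter (fun t => Q ∣ r + t)).card : ℂ) =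
      ∑ k ∈ range (N / Q + 1), (if t0 + Q * k < N then (1 : ℂ) else 0) := by
    rw [← h]; simp
  have h2 : ((range N).filter (fun t => Q ∣ r + t)).card =
      ∑ k ∈ range (N / Q + 1), (if t0 + Q * k < N then 1 else 0) := by
    have h3 : (((range N).filter (fun t => Q ∣ r + t)).card : ℂ) =
        ((∑ k ∈ range (N / Q + 1), (if t0 + Q * k < N then 1 else 0) : ℕ) : ℂ) := by
      rw [h1]; push_cast; rfl
    exact_mod_cast h3
  rw [h2]
  calc ∑ k ∈ range (N / Q + 1), (if t0 + Q * k < N then 1 else 0)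
      ≤ ∑ k ∈ range (N / Q + 1), 1 := Finset.sum_le_sum fun k _ => by split_ifs <;> norm_num
    _ = N / Q + 1 := by simp

/-- A small change of the frequency, and a multiple of `1 / q`. -/
lemma shift (f : ℕ → ℝ) (hf : ∀ t, |f t| ≤ 1) (N q r : ℕ) (hq : 1 ≤ q) (hN : 100 * q ≤ N)
    (α β : ℝ) (b : ℤ) (h : |β - α - b / q| ≤ 1 / (100 * N)) :
    ‖A1 (FF f β) N q r‖ ≤ ‖A1 (FF f α) N q r‖ + 7 / 100 := by
  have hq0 : (0 : ℝ) < q := by exact_mod_cast hq
  have hN0 : (0 : ℝ) < N := by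
    have : 0 < N := by omega
    exact_mod_cast this
  set θ : ℝ := β - α - b / q with hθ
  have h1 : ∀ t ∈ (range N).filter (fun t => q ∣ r + t),
      FF f β t = ee (b * r / q) * (FF f α t * ee (-(θ * t))) := by
    intro t ht
    obtain ⟨k, hk⟩ := (mem_filter.1 ht).2
    unfold FF
    have h2 : ee (-(β * t)) = ee (b * r / q) * (ee (-(α * t)) * ee (-(θ * t))) := by
      rw [← ee_add, ← ee_add]
      have h3 : -(β * t) = (b * r / q + (-(α * t) + -(θ * t))) + ((-(b * k) : ℤ) : ℝ) := by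
        have h4 : ((r : ℝ) + t) = q * k := by exact_mod_cast hk
        rw [hθ]
        push_cast
        field_simp
        linear_combination (-(b : ℝ)) * h4
      rw [h3, ee_add _ (((-(b * k) : ℤ) : ℝ)), ee_int, mul_one]
    rw [h2]
    ring
  have h2 : A1 (FF f β) N q r = ee (b * r / q) * (A1 (FF f α) N q r +
      ((q : ℂ) / N) * ∑ t ∈ (range N).filter (fun t => q ∣ r + t),
        FF f α t * (ee (-(θ * t)) - 1)) := by
    unfold A1
    rw [Finset.sum_congr rfl h1, ← Finset.mul_sum]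
    have h3 : ∑ t ∈ (range N).filter (fun t => q ∣ r + t), FF f α t * ee (-(θ * t)) =
        ∑ t ∈ (range N).filter (fun t => q ∣ r + t), FF f α t +
        ∑ t ∈ (range N).filter (fun t => q ∣ r + t), FF f α t * (ee (-(θ * t)) - 1) := by
      rw [← Finset.sum_add_distrib]
      exact Finset.sum_congr rfl fun t _ => by ring
    rw [h3]
    ring
  rw [h2, norm_mul, norm_ee, one_mul]
  refine (norm_add_le _ _).trans ?_
  gcongr
  rw [norm_mul, norm_div, Complex.norm_natCast, Complex.norm_natCast]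
  have h3 : ‖∑ t ∈ (range N).filter (fun t => q ∣ r + t), FF f α t * (ee (-(θ * t)) - 1)‖ ≤
      ((N : ℝ) / q + 1) * (2 * Real.pi / 100) := by
    calc _ ≤ ∑ t ∈ (range N).filter (fun t => q ∣ r + t), (2 * Real.pi / 100) := by
          refine norm_sum_le_of_le _ fun t ht => ?_
          rw [norm_mul]
          have h4 := norm_ee_sub_one_le (-(θ * t))
          have h5 : |(-(θ * t))| ≤ 1 / 100 := by
            rw [abs_neg, abs_mul, Nat.abs_cast]
            have h6 : (t : ℝ) ≤ N := by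
              have := (mem_range.1 (mem_filter.1 ht).1).le
              exact_mod_cast this
            calc |θ| * t ≤ 1 / (100 * N) * N := by gcongr
              _ = 1 / 100 := by field_simp
          calc ‖FF f α t‖ * ‖ee (-(θ * t)) - 1‖ ≤ 1 * (2 * Real.pi * (1 / 100)) := by
                refine mul_le_mul (norm_FF hf α t) (h4.trans ?_) (norm_nonneg _) zero_le_one
                exact mul_le_mul_of_nonneg_left h5 (by positivity)
            _ = 2 * Real.pi / 100 := by ring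
      _ = (((range N).filter (fun t => q ∣ r + t)).card : ℝ) * (2 * Real.pi / 100) := by
          rw [Finset.sum_const, nsmul_eq_mul]
      _ ≤ ((N : ℝ) / q + 1) * (2 * Real.pi / 100) := by
          have h7 : (((range N).filter (fun t => q ∣ r + t)).card : ℝ) ≤ (N : ℝ) / q + 1 := by
            have h8 := card_class N q r hq
            calc (((range N).filter (fun t => q ∣ r + t)).card : ℝ) ≤ ((N / q + 1 : ℕ) : ℝ) := by
                  exact_mod_cast h8
              _ ≤ (N : ℝ) / q + 1 := by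
                  push_cast
                  gcongr
                  exact Nat.cast_div_le
          exact mul_le_mul_of_nonneg_right h7 (by positivity)
  have hpi := Real.pi_lt_d2
  have hpi0 := Real.pi_pos
  calc (q : ℝ) / N * ‖∑ t ∈ (range N).filter (fun t => q ∣ r + t), FF f α t * (ee (-(θ * t)) - 1)‖
      ≤ (q : ℝ) / N * (((N : ℝ) / q + 1) * (2 * Real.pi / 100)) :=
        mul_le_mul_of_nonneg_left h3 (by positivity)
    _ = (1 + q / N) * (2 * Real.pi / 100) := by field_simp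
    _ ≤ (1 + 1 / 100) * (2 * Real.pi / 100) := by
        have h9 : (q : ℝ) / N ≤ 1 / 100 := by
          rw [div_le_div_iff₀ hN0 (by norm_num)]
          have : ((100 * q : ℕ) : ℝ) ≤ N := by exact_mod_cast hN
          push_cast at this
          linarith
        exact mul_le_mul_of_nonneg_right (by linarith) (by positivity)
    _ ≤ 7 / 100 := by nlinarith

end Pool.Agent.H87.ES
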